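import Mathlib
import Pool.Agent.H.MP_55e6a3_gt.A

set_option autoImplicit false

namespace Pool.Agent.H.MP_ffd784_gt

open Set Filter Topology Cardinal Pool.Agent.H.MP_55e6a3_gt

abbrev J : Type := I × ℕ × Bool

def G (a : ℕ → Finset J) : Prop :=
  (∀ k, ∀ i ∈ a k, ∀ j ∈ a k, i.1 = j.1 → i = j) ∧ ∀ α : I, {k | ∃ j ∈ a k, j.1 = α}.Finite

def S (g : I → Bool) (p : Finset J) : Prop := ∀ j ∈ p, g j.1 = j.2.2

theorem step {ι : Type} [Countable ι] (a : ι → ℕ → Finset J) (T : ι → Set ℕ) :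
    ∃ g : I → Bool, ∀ i, G (a i) → (T i).Infinite → {k | k ∈ T i ∧ S g (a i k)}.Infinite := by
  classical
  have h : Dense (⋂ i : ι × ℕ, {g : I → Bool | G (a i.1) → (T i.1).Infinite →
      ∃ k ∈ T i.1, i.2 < k ∧ S g (a i.1 k)}) := by
    refine dense_iInter_of_isOpen (fun i => ?_) fun i => ?_
    · by_cases h : G (a i.1) ∧ (T i.1).Infinite
      · have : {g : I → Bool | G (a i.1) → (T i.1).Infinite → ∃ k ∈ T i.1, i.2 < k ∧
            S g (a i.1 k)} = ⋃ k ∈ T i.1 ∩ Ioi i.2, ⋂ j ∈ a i.1 k, {g | g j.1 = j.2.2} := by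
          ext g; simp [h.1, h.2, S, and_assoc]
        rw [this]
        exact isOpen_biUnion fun k _ => isOpen_biInter_finset fun j _ =>
          (continuous_apply (A := fun _ : I => Bool) j.1).isOpen_preimage {j.2.2} (isOpen_discrete _)
      · have : {g : I → Bool | G (a i.1) → (T i.1).Infinite → ∃ k ∈ T i.1, i.2 < k ∧
            S g (a i.1 k)} = Set.univ := eq_univ_of_forall fun g h1 h2 => absurd ⟨h1, h2⟩ h
        rw [this]; exact isOpen_univ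
    · refine dense_iff_inter_open.2 fun U hU ⟨g, hg⟩ => ?_
      by_cases h : G (a i.1) ∧ (T i.1).Infinite
      swap
      · exact ⟨g, hg, fun h1 h2 => absurd ⟨h1, h2⟩ h⟩
      obtain ⟨t, u, h1, h2⟩ := isOpen_pi_iff.1 hU g hg
      obtain ⟨k, k1, k2⟩ := h.2.exists_notMem_finite
        ((t.finite_toSet.biUnion fun α _ => h.1.2 α).union (finite_Iic i.2))
      simp only [mem_union, mem_iUnion, mem_Iic, not_or, not_exists, not_le] at k2
      refine ⟨fun α => if h : ∃ j ∈ a i.1 k, j.1 = α then h.choose.2.2 else g α,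
        h2 fun α hα => ?_, fun _ _ => ⟨k, k1, k2.2, fun j hj => ?_⟩⟩
      · have : ¬ ∃ j ∈ a i.1 k, j.1 = α := k2.1 α hα
        simp only [dif_neg this]
        exact (h1 α hα).2
      · have h3 : ∃ j' ∈ a i.1 k, j'.1 = j.1 := ⟨j, hj, rfl⟩
        simp only [dif_pos h3]
        rw [h.1.1 k _ h3.choose_spec.1 j hj h3.choose_spec.2]
  obtain ⟨g, hg⟩ := h.nonempty
  refine ⟨g, fun i h1 h2 => infinite_of_forall_exists_gt fun n => ?_⟩
  obtain ⟨k, k1, k2, k3⟩ := mem_iInter.1 hg (i, n) h1 h2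
  exact ⟨k, ⟨k1, k3⟩, k2⟩

theorem col (en : I → ℕ → Finset J) : ∃ c : I → I → Bool, ∀ ξ, G (en ξ) → ∀ b : Finset I,
    (∀ β ∈ b, ξ < β) → {k | ∀ β ∈ b, S (c β) (en ξ k)}.Infinite := by
  classical
  choose F hF using fun (β : I) (r : Iio β → I → Bool) =>
    haveI := (cIio β).to_subtype
    step (ι := Iio β × Finset (Iio β)) (fun i => en i.1) fun i => {k | ∀ γ ∈ i.2, S (r γ) (en i.1 k)}
  obtain ⟨c, hc⟩ : ∃ c : I → I → Bool, ∀ ξ, c ξ = F ξ fun η => c η :=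
    ⟨wellFounded_lt.fix fun ξ r => F ξ fun η => r η η.2, fun ξ => wellFounded_lt.fix_eq _ ξ⟩
  refine ⟨c, fun ξ hξ b => ?_⟩
  induction b using Finset.induction_on_max with
  | empty => intro _; simpa using infinite_univ
  | insert β s h1 ih =>
    intro h
    have h2 := hF β (fun η => c η) (⟨ξ, h β (by simp)⟩, s.subtype (· ∈ Iio β)) hξ
      ((ih fun γ hγ => h γ (by simp [hγ])).mono (by
        intro k hk γ hγ; exact hk γ (Finset.mem_subtype.1 hγ)))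
    rw [← hc β] at h2
    refine h2.mono fun k hk γ hγ => ?_
    rcases Finset.mem_insert.1 hγ with rfl | hγ
    · exact hk.2
    · exact hk.1 ⟨γ, h1 γ hγ⟩ (Finset.mem_subtype.2 hγ)

def ok (c : I → I → Bool) (x : Set J) : Prop :=
  ∀ i ∈ x, ∀ j ∈ x, (i.1 = j.1 → i = j) ∧ (i.1 < j.1 → i.2 = j.2 → c j.1 i.1 = i.2.2)

theorem ok.mono {c : I → I → Bool} {x y : Set J} (h : ok c y) (h1 : x ⊆ y) : ok c x :=
  fun i hi j hj => h i (h1 hi) j (h1 hj)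

theorem ccc {c : I → I → Bool} (hc : ∀ a, G a → ∃ ξ, ∀ b : Finset I, (∀ β ∈ b, ξ < β) →
    ∃ k, ∀ β ∈ b, S (c β) (a k)) {A : Set (Finset J)} (h1 : ∀ p ∈ A, ok c p)
    (h2 : A.Pairwise fun p q => ¬ ok c (↑p ∪ ↑q)) : A.Countable := by
  classical
  by_contra h
  obtain ⟨n, hn⟩ : ∃ n, ¬ {p | p ∈ A ∧ p.card = n ∧ ∅ ⊆ p}.Countable := by
    by_contra h3
    push Not at h3
    exact h ((countable_iUnion h3).mono fun p hp => by simpa using hp)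
  obtain ⟨r, r1, r2⟩ : ∃ r : Finset J, ¬ {p | p ∈ A ∧ p.card = n ∧ r ⊆ p}.Countable ∧
      ∀ j ∉ r, {p | p ∈ A ∧ p.card = n ∧ insert j r ⊆ p}.Countable := by
    by_contra h3
    push Not at h3
    have h4 : ∀ m, ∃ r : Finset J, ¬ {p | p ∈ A ∧ p.card = n ∧ r ⊆ p}.Countable ∧ r.card = m := by
      intro m
      induction m with
      | zero => exact ⟨∅, hn, rfl⟩
      | succ m ih =>
        obtain ⟨r, r1, r2⟩ := ih
        obtain ⟨j, j1, j2⟩ := h3 r r1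
        exact ⟨_, j2, by rw [Finset.card_insert_of_notMem j1, r2]⟩
    obtain ⟨r, r1, r2⟩ := h4 (n + 1)
    obtain ⟨p, -, p1, p2⟩ : {p | p ∈ A ∧ p.card = n ∧ r ⊆ p}.Nonempty :=
      nonempty_iff_ne_empty.2 fun h5 => r1 (h5 ▸ countable_empty)
    have := Finset.card_le_card p2
    omega
  have h3 : ∀ (C : Set I) (E : Set (Finset J)), C.Countable → E.Countable →
      ∃ p ∈ A, r ⊆ p ∧ p ∉ E ∧ ∀ j ∈ p, j ∉ r → j.1 ∉ C := by
    intro C E hC hE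
    by_contra h3
    push Not at h3
    refine r1 ((hE.union (((hC.prod countable_univ).mono (inter_subset_left (t := (↑r)ᶜ))).biUnion
      fun j hj => r2 j hj.2)).mono fun p hp => ?_)
    by_cases h4 : p ∈ E
    · exact Or.inl h4
    obtain ⟨j, j1, j2, j3⟩ := h3 p hp.1 hp.2.2 h4
    exact Or.inr (mem_biUnion (x := j) ⟨⟨j3, trivial⟩, j2⟩
      ⟨hp.1, hp.2.1, Finset.insert_subset j1 hp.2.2⟩)
  obtain ⟨f, f1, f2⟩ := exists_seq_of_forall_finset_exists (fun p => p ∈ A ∧ r ⊆ p)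
    (fun p q => ∀ j ∈ q, j ∉ r → ∀ i ∈ p, i.1 ≠ j.1) fun s _ => by
      obtain ⟨p, p1, p2, -, p3⟩ := h3 (⋃ p ∈ s, Prod.fst '' (p : Set J)) ∅
        (s.countable_toSet.biUnion fun p _ => p.countable_toSet.image _) countable_empty
      exact ⟨p, ⟨p1, p2⟩, fun q hq j j1 j2 i hi e => p3 j j1 j2 (mem_biUnion hq ⟨i, hi, e⟩)⟩
  obtain ⟨ξ, hξ⟩ := hc (fun k => f k \ r) ⟨fun k i hi j hj => (h1 _ (f1 k).1 i
    (Finset.mem_sdiff.1 hi).1 j (Finset.mem_sdiff.1 hj).1).1, fun α => by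
      rcases eq_empty_or_nonempty {k | ∃ j ∈ f k \ r, j.1 = α} with h4 | ⟨k, i, i1, i2⟩
      · rw [h4]; exact finite_empty
      · refine (finite_Iic k).subset fun l ⟨j, j1, j2⟩ => mem_Iic.2 (not_lt.1 fun h4 => ?_)
        exact f2 k l h4 j (Finset.mem_sdiff.1 j1).1 (Finset.mem_sdiff.1 j1).2 i
          (Finset.mem_sdiff.1 i1).1 (i2.trans j2.symm)⟩
  obtain ⟨q, q1, q2, q3, q4⟩ := h3 (Iic ξ ∪ ⋃ k, ⋃ i ∈ f k, Iic i.1) (range f)
    ((cIic ξ).union (countable_iUnion fun k => (f k).countable_toSet.biUnion fun i _ => cIic _))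
    (countable_range f)
  simp only [mem_union, mem_iUnion, mem_Iic, not_or, not_exists, not_le] at q4
  obtain ⟨k, hk⟩ := hξ ((q \ r).image Prod.fst) fun β hβ => by
    obtain ⟨j, j1, rfl⟩ := Finset.mem_image.1 hβ
    exact (q4 j (Finset.mem_sdiff.1 j1).1 (Finset.mem_sdiff.1 j1).2).1
  refine h2 (f1 k).1 q1 (fun e => q3 ⟨k, e⟩) fun i hi j hj => ?_
  by_cases a1 : i ∈ f k ∧ j ∈ f k
  · exact h1 _ (f1 k).1 i a1.1 j a1.2
  by_cases a2 : i ∈ q ∧ j ∈ q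
  · exact h1 _ q1 i a2.1 j a2.2
  rcases hi with hi | hi
  · have b1 : j ∈ q := hj.resolve_left fun h4 => a1 ⟨hi, h4⟩
    have b2 : j ∉ r := fun h4 => a1 ⟨hi, (f1 k).2 h4⟩
    have b3 : i ∉ r := fun h4 => a2 ⟨q2 h4, b1⟩
    exact ⟨fun e => absurd e ((q4 j b1 b2).2 k i hi).ne, fun _ _ => hk j.1
      (Finset.mem_image_of_mem _ (Finset.mem_sdiff.2 ⟨b1, b2⟩)) i (Finset.mem_sdiff.2 ⟨hi, b3⟩)⟩
  · have b1 : j ∈ f k := hj.resolve_right fun h4 => a2 ⟨hi, h4⟩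
    have b2 : i ∉ r := fun h4 => a1 ⟨(f1 k).2 h4, b1⟩
    have := (q4 i hi b2).2 k j b1
    exact ⟨fun e => absurd e this.ne', fun e => absurd e this.not_gt⟩

theorem fresh (s : Finset J) : ∃ n : ℕ, ∀ j ∈ s, j.2.1 ≠ n := by
  obtain ⟨n, hn⟩ := Infinite.exists_notMem_finset (s.image fun j => j.2.1)
  exact ⟨n, fun j hj e => hn (Finset.mem_image.2 ⟨j, hj, e⟩)⟩

theorem ext1 {c : I → I → Bool} {p : Set J} (h : ok c p) {k : J} (h1 : ∀ j ∈ p, j.1 ≠ k.1)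
    (h2 : ∀ j ∈ p, j.2.1 ≠ k.2.1) : ok c (insert k p) := by
  rintro i (rfl | hi) j (rfl | hj)
  · exact ⟨fun _ => rfl, fun e => absurd e (lt_irrefl _)⟩
  · exact ⟨fun e => absurd e.symm (h1 j hj), fun _ e => absurd (congrArg Prod.fst e).symm (h2 j hj)⟩
  · exact ⟨fun e => absurd e (h1 i hi), fun _ e => absurd (congrArg Prod.fst e) (h2 i hi)⟩
  · exact h i hi j hj

theorem ext2 {c : I → I → Bool} (T : Finset I) (s : Finset J) {p : Finset J} (h : ok c p) :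
    ∃ q : Finset J, ok c q ∧ p ⊆ q ∧ (∀ α ∈ T, ∃ j ∈ q, j.1 = α) ∧ ∀ j ∈ q, j ∈ s → j ∈ p := by
  classical
  induction T using Finset.induction_on with
  | empty => exact ⟨p, h, subset_rfl, by simp, fun j hj _ => hj⟩
  | insert α T _ ih =>
    obtain ⟨q, q1, q2, q3, q4⟩ := ih
    by_cases h1 : ∃ j ∈ q, j.1 = α
    · refine ⟨q, q1, q2, fun β hβ => ?_, q4⟩
      rcases Finset.mem_insert.1 hβ with rfl | hβ
      exacts [h1, q3 β hβ]
    push Not at h1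
    obtain ⟨n, hn⟩ := fresh (q ∪ s)
    refine ⟨insert (α, n, false) q, ?_, q2.trans (Finset.subset_insert _ _), fun β hβ => ?_,
      fun j hj h2 => ?_⟩
    · rw [Finset.coe_insert]
      exact ext1 q1 h1 fun j hj => hn j (Finset.mem_union_left _ hj)
    · rcases Finset.mem_insert.1 hβ with rfl | hβ
      · exact ⟨_, Finset.mem_insert_self _ _, rfl⟩
      · obtain ⟨j, j1, j2⟩ := q3 β hβ
        exact ⟨j, Finset.mem_insert_of_mem j1, j2⟩
    · rcases Finset.mem_insert.1 hj with rfl | hj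
      · exact absurd rfl (hn _ (Finset.mem_union_right _ h2))
      · exact q4 j hj h2

theorem pib {c : I → I → Bool} {x : Set J} (h : ok c x) (s : Finset J) : ∃ q : Finset J, ok c q ∧
    (∀ j ∈ s, j ∈ x → j ∈ q) ∧ ∀ y, ok c y → ↑q ⊆ y → ∀ j ∈ s, (j ∈ y ↔ j ∈ x) := by
  classical
  have h1 : {j | j ∈ x ∧ j.1 ∈ s.image Prod.fst}.Finite :=
    Finite.of_finite_image (f := Prod.fst) ((s.image Prod.fst).finite_toSet.subset (by
      rintro _ ⟨j, hj, rfl⟩; exact hj.2)) fun i hi j hj => (h i hi.1 j hj.1).1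
  obtain ⟨q, q1, q2, q3, q4⟩ := ext2 (c := c) (s.image Prod.fst) s (p := h1.toFinset)
    (h.mono fun j hj => (h1.mem_toFinset.1 hj).1)
  have h2 : ∀ j ∈ s, j ∈ x → j ∈ q := fun j j1 j2 =>
    q2 (h1.mem_toFinset.2 ⟨j2, Finset.mem_image_of_mem _ j1⟩)
  refine ⟨q, q1, h2, fun y y1 y2 j hj => ⟨fun h3 => ?_, fun h3 => y2 (h2 j hj h3)⟩⟩
  obtain ⟨i, i1, i2⟩ := q3 j.1 (Finset.mem_image_of_mem _ hj)
  obtain rfl := (y1 i (y2 i1) j h3).1 i2
  exact (h1.mem_toFinset.1 (q4 i i1 hj)).1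

def pre (c : I → I → Bool) (A : Set (Finset J)) : Prop :=
  ∀ p : Finset J, ok c p → ∃ a ∈ A, ok c (↑p ∪ ↑a)

def sp (y : J → Bool) : Set J := {j | y j = true}

theorem gen {c : I → I → Bool} {ι : Type} [Countable ι] (A : ι → Set (Finset J)) (p : Finset J) :
    ∃ y : J → Bool, ok c (sp y) ∧ (sp y).Countable ∧ (ok c p → ↑p ⊆ sp y) ∧
      ∀ i, pre c (A i) → ∃ a ∈ A i, ↑a ⊆ sp y := by
  classical
  obtain ⟨p0, h0⟩ : ∃ p0 : {p : Finset J // ok c p}, ok c p → p ⊆ p0.1 := by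
    by_cases h : ok c p
    · exact ⟨⟨p, h⟩, fun _ => subset_rfl⟩
    · exact ⟨⟨∅, by simp [ok]⟩, fun h1 => absurd h1 h⟩
  cases nonempty_encodable ι
  let D : ι → Order.Cofinal {p : Finset J // ok c p} := fun i =>
    ⟨{q | pre c (A i) → ∃ a ∈ A i, a ⊆ q.1}, fun q => by
      by_cases h : pre c (A i)
      · obtain ⟨a, a1, a2⟩ := h q.1 q.2
        exact ⟨⟨q.1 ∪ a, by rwa [Finset.coe_union]⟩, fun _ => ⟨a, a1, Finset.subset_union_right⟩,
          Finset.subset_union_left⟩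
      · exact ⟨q, fun h1 => absurd h1 h, le_rfl⟩⟩
  obtain ⟨s, s1, s2, s3⟩ : ∃ s : ℕ → {p : Finset J // ok c p}, Monotone s ∧ s 0 = p0 ∧
      ∀ i, ∃ n, s n ∈ D i := ⟨_, Order.sequenceOfCofinals.monotone p0 D, rfl,
        fun i => ⟨_, Order.sequenceOfCofinals.encode_mem p0 D i⟩⟩
  have e : sp (fun j => decide (∃ n, j ∈ (s n).1)) = ⋃ n, ↑(s n).1 := by ext j; simp [sp]
  refine ⟨fun j => decide (∃ n, j ∈ (s n).1), ?_, ?_, fun h => ?_, fun i h => ?_⟩ <;> rw [e]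
  · intro i hi j hj
    obtain ⟨n, hn⟩ := mem_iUnion.1 hi
    obtain ⟨m, hm⟩ := mem_iUnion.1 hj
    exact (s (max n m)).2 i (s1 (le_max_left n m) hn) j (s1 (le_max_right n m) hm)
  · exact countable_iUnion fun n => (s n).1.countable_toSet
  · exact fun j hj => mem_iUnion.2 ⟨0, s2 ▸ h0 h hj⟩
  · obtain ⟨n, hn⟩ := s3 i
    obtain ⟨a, a1, a2⟩ := hn h
    exact ⟨a, a1, fun j hj => mem_iUnion.2 ⟨n, a2 hj⟩⟩

theorem base (ch : continuum = (aleph 1 : Cardinal.{0})) : ∃ (c : I → I → Bool) (X : Set (J → Bool)),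
    (∀ A : Set (Finset J), (∀ p ∈ A, ok c p) → (A.Pairwise fun p q => ¬ ok c (↑p ∪ ↑q)) →
      A.Countable) ∧ (∀ y ∈ X, ok c (sp y) ∧ (sp y).Countable) ∧
    (∀ p : Finset J, ok c p → ∃ y ∈ X, ↑p ⊆ sp y) ∧
    ∀ A, A.Countable → pre c A → {y | y ∈ X ∧ ¬ ∃ a ∈ A, ↑a ⊆ sp y}.Countable := by
  obtain ⟨e⟩ : Nonempty (I ≃ (ℕ → Finset J)) := by
    rw [← Cardinal.eq]
    simp [← ch, aleph0_le_continuum]
  obtain ⟨c, hc⟩ := col e
  choose x x1 x2 x3 x4 using fun ξ : I => haveI := (cIio ξ).to_subtype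
    gen (c := c) (fun η : Iio ξ => range (e η)) (e ξ 0)
  refine ⟨c, range x, fun A => ccc fun a ha => ?_, ?_, fun p hp => ?_, fun A h1 h2 => ?_⟩
  · obtain ⟨ξ, rfl⟩ := e.surjective a
    exact ⟨ξ, fun b hb => (hc ξ ha b hb).nonempty⟩
  · rintro _ ⟨ξ, rfl⟩
    exact ⟨x1 ξ, x2 ξ⟩
  · obtain ⟨ξ, h⟩ := e.surjective fun _ => p
    have := x3 ξ
    rw [h] at this
    exact ⟨_, ⟨ξ, rfl⟩, this hp⟩
  · obtain ⟨a, a1, -⟩ := h2 ∅ (by simp [ok])
    obtain ⟨f, rfl⟩ := h1.exists_eq_range ⟨a, a1⟩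
    obtain ⟨η, rfl⟩ := e.surjective f
    refine ((cIic η).image x).mono ?_
    rintro _ ⟨⟨ξ, rfl⟩, h⟩
    exact ⟨ξ, mem_Iic.2 (not_lt.1 fun h3 => h (x4 ξ ⟨η, h3⟩ h2)), rfl⟩

end Pool.Agent.H.MP_ffd784_gt
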